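import Pool.Agent.Helper43_ATP.Fin11

/-!
# The bound for the number of modular characters, closed

The assembly of squad ATP is `Pool/Agent/Helper43_ATP/Asm.lean`; this file only records the bound
with no hypotheses.
-/

noncomputable section

namespace Pool.Agent.PP.TP.H11

open Pool.Agent.Helper51_AWC Pool.Agent.Helper79_WRA Pool.Agent.PP Pool.Agent.PP.KF
open Pool.Agent.PP.K9 Pool.Agent.PP.H75 Pool.Agent.PP.T3 Pool.Agent.PP.T2 Pool.Agent.PP.TB

attribute [local instance] Ideal.Quotient.field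

/-- the bound: a block with a defect group `V` such that `|V : Z(V)| ≤ ℓ ^ p` and
`|Z(V) : Z(V) ^ ℓ| ≤ ℓ ^ r` has at most `ℓ ^ cb ℓ r p` irreducible modular characters. -/
theorem bd_ (ℓ : ℕ) [Fact ℓ.Prime] (M : Ideal (integralClosure ℤ ℂ)) [M.IsMaximal]
    (hM : (ℓ : integralClosure ℤ ℂ) ∈ M) (r p : ℕ) : Bd M ℓ r p (cb ℓ r p) :=
  H43.bd T10.stf_ ℓ M hM r p

end Pool.Agent.PP.TP.H11
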